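import Pool.Agent.Q215.SR.Stm

/-!
Universal `Π⁰_ξ` sets on the Cantor space (lemma job SR-UNIV of helper215).
-/

set_option autoImplicit false

open Set Topology Filter Ordinal

namespace Pool.Agent.Q254.SR

open Pool.Agent.Q215.SR

theorem countable_Iio_of_lt {ξ : Ordinal.{0}} (h : ξ < ω_ 1) : (Set.Iio ξ).Countable := by
  rw [← Cardinal.le_aleph0_iff_set_countable, Cardinal.mk_Iio_ordinal, Cardinal.lift_le_aleph0]
  have h1 : ξ.card < Cardinal.aleph 1 := by
    rw [← Cardinal.lt_ord, Cardinal.ord_aleph]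
    exact h
  exact Cardinal.lt_aleph_one_iff.mp h1

theorem isOpen_of_sigmaZero_one {X : Type} [TopologicalSpace X] {T : Set X}
    (h : SigmaZero 1 T) : IsOpen T := by
  generalize hξ : (1 : Ordinal.{0}) = ξ at h
  induction h with
  | base U hU => exact hU
  | union ξ hξ' η A h1 h2 hA ih =>
    exact absurd hξ' (by rw [← hξ]; exact lt_irrefl _)

theorem exists_seq_basis' (Y : Type) [TopologicalSpace Y] [SecondCountableTopology Y] :
    ∃ V : ℕ → Set Y, (∀ k, IsOpen (V k)) ∧
      ∀ (O : Set Y) (y : Y), IsOpen O → y ∈ O → ∃ k, y ∈ V k ∧ V k ⊆ O := by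
  obtain ⟨b, hbc, -, hb⟩ := TopologicalSpace.exists_countable_basis Y
  by_cases hne : b.Nonempty
  · obtain ⟨V, hV⟩ := hbc.exists_eq_range hne
    refine ⟨V, fun k => hb.isOpen (by rw [hV]; exact mem_range_self k), fun O y hO hy => ?_⟩
    obtain ⟨v, hv, hyv, hvO⟩ := hb.exists_subset_of_mem_open hy hO
    rw [hV] at hv
    obtain ⟨k, rfl⟩ := hv
    exact ⟨k, hyv, hvO⟩
  · refine ⟨fun _ => ∅, fun _ => isOpen_empty, fun O y hO hy => ?_⟩
    obtain ⟨v, hv, -, -⟩ := hb.exists_subset_of_mem_open hy hO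
    exact absurd ⟨v, hv⟩ hne

theorem exists_code {ξ : Ordinal.{0}} (hξ : 1 < ξ) {T : Set (ℕ → Bool)} (h : SigmaZero ξ T) :
    ∃ (η : ℕ → Ordinal.{0}) (A : ℕ → Set (ℕ → Bool)), (∀ n, 1 ≤ η n) ∧ (∀ n, η n < ξ) ∧
      (∀ n, SigmaZero (η n) (A n)ᶜ) ∧ T = ⋃ n, A n := by
  generalize hζ : ξ = ζ at h
  cases h with
  | base U hU => exact absurd hξ (by rw [hζ]; exact lt_irrefl _)
  | union ξ hξ' η A h1 h2 hA => exact ⟨η, A, h1, hζ.symm ▸ h2, hA, rfl⟩

theorem polish_bool : PolishSpace Bool := by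
  let _ : MetricSpace Bool := TopologicalSpace.metrizableSpaceMetric Bool
  infer_instance

theorem univ_aux (hc : S_cls) (ξ : Ordinal.{0}) : 1 ≤ ξ → ξ < ω_ 1 →
    ∃ W : (ℕ → Bool) → (ℕ → Bool) → Prop,
      (∀ g : (ℕ → Bool) → (ℕ → Bool), Continuous g → SigmaZero ξ {x | W (g x) x}ᶜ) ∧
      ∀ S : Set (ℕ → Bool), SigmaZero ξ Sᶜ → ∃ z, S = {x | W z x} := by
  induction ξ using WellFoundedLT.induction with
  | ind ξ ih =>
  intro hξ1 hξ
  obtain ⟨c1, c2, c3, c4⟩ := hc
  rcases hξ1.eq_or_lt with rfl | hξ1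
  · obtain ⟨V, hVo, hV⟩ := exists_seq_basis' (ℕ → Bool)
    refine ⟨fun z x => ∀ n, z n = true → x ∉ V n, fun g hg => ?_, fun S hS => ?_⟩
    · have e : {x | ∀ n, g x n = true → x ∉ V n}ᶜ = ⋃ n, ({x | g x n = true} ∩ V n) := by
        ext x
        simp only [mem_compl_iff, mem_iUnion, mem_inter_iff]
        constructor
        · intro h
          by_contra hcon
          push Not at hcon
          exact h fun n h1 h2 => hcon n h1 h2
        · rintro ⟨n, h1, h2⟩ h
          exact h n h1 h2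
      rw [e]
      refine SigmaZero.base _ (isOpen_iUnion fun n => IsOpen.inter ?_ (hVo n))
      exact (isOpen_discrete {true}).preimage ((continuous_apply n).comp hg)
    · have ho := isOpen_of_sigmaZero_one hS
      classical
      refine ⟨fun n => decide (V n ⊆ Sᶜ), ?_⟩
      ext x
      constructor
      · intro hx n hn hxn
        exact (of_decide_eq_true hn) hxn hx
      · intro h
        by_contra hx
        obtain ⟨k, hk1, hk2⟩ := hV Sᶜ x ho hx
        exact h k (decide_eq_true hk2) hk1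
  · have hcount : {ζ : Ordinal.{0} | 1 ≤ ζ ∧ ζ < ξ}.Countable :=
      (countable_Iio_of_lt hξ).mono fun ζ hζ => hζ.2
    obtain ⟨ζ', hζ'⟩ := hcount.exists_eq_range ⟨1, le_rfl, hξ1⟩
    have hmem : ∀ a, 1 ≤ ζ' a ∧ ζ' a < ξ := fun a => by
      have : ζ' a ∈ {ζ : Ordinal.{0} | 1 ≤ ζ ∧ ζ < ξ} := by rw [hζ']; exact mem_range_self a
      exact this
    have hW : ∀ a, ∃ W : (ℕ → Bool) → (ℕ → Bool) → Prop,
        (∀ g : (ℕ → Bool) → (ℕ → Bool), Continuous g → SigmaZero (ζ' a) {x | W (g x) x}ᶜ) ∧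
        ∀ S : Set (ℕ → Bool), SigmaZero (ζ' a) Sᶜ → ∃ z, S = {x | W z x} := fun a =>
      ih (ζ' a) (hmem a).2 (hmem a).1 ((hmem a).2.trans hξ)
    choose W hW1 hW2 using hW
    refine ⟨fun z x => ∀ n, ¬ W (Nat.unpair n).1 (fun k => z (Nat.pair n k)) x,
      fun g hg => ?_, fun S hS => ?_⟩
    · have e : {x | ∀ n, ¬ W (Nat.unpair n).1 (fun k => g x (Nat.pair n k)) x}ᶜ =
          ⋃ n, {x | W (Nat.unpair n).1 (fun k => g x (Nat.pair n k)) x} := by
        ext x
        rw [mem_iUnion]
        constructor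
        · intro h
          by_contra hcon
          push Not at hcon
          exact h fun n => hcon n
        · rintro ⟨n, hn⟩ h
          exact h n hn
      rw [e]
      refine SigmaZero.union ξ hξ1 (fun n => ζ' (Nat.unpair n).1) _ (fun n => (hmem _).1)
        (fun n => (hmem _).2) fun n => ?_
      refine hW1 (Nat.unpair n).1 (fun x k => g x (Nat.pair n k)) ?_
      exact continuous_pi fun k => (continuous_apply _).comp hg
    · obtain ⟨η, A, h1, h2, h3, h4⟩ := exists_code hξ1 hS
      classical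
      have hk : ∀ k, ∃ a, ζ' a = η k := fun k => by
        have : η k ∈ {ζ : Ordinal.{0} | 1 ≤ ζ ∧ ζ < ξ} := ⟨h1 k, h2 k⟩
        rw [hζ'] at this
        exact this
      choose a ha using hk
      obtain ⟨B, hBdef⟩ : ∃ B : ℕ → Set (ℕ → Bool), ∀ n, B n =
          if ζ' (Nat.unpair n).1 = η (Nat.unpair n).2 then A (Nat.unpair n).2 else ∅ :=
        ⟨_, fun n => rfl⟩
      have _hpb : PolishSpace Bool := polish_bool
      have hB : ∀ n, SigmaZero (ζ' (Nat.unpair n).1) (B n)ᶜ := fun n => by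
        rw [hBdef]
        split_ifs with h
        · rw [h]; exact h3 _
        · rw [compl_empty]
          exact c1 _ 1 _ _ (hmem _).1 (SigmaZero.base _ isOpen_univ)
      have hBU : ⋃ n, B n = ⋃ k, A k := by
        apply Subset.antisymm
        · refine iUnion_subset fun n => ?_
          rw [hBdef]
          split_ifs with h
          · exact subset_iUnion A _
          · exact empty_subset _
        · refine iUnion_subset fun k => ?_
          refine Subset.trans ?_ (subset_iUnion B (Nat.pair (a k) k))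
          rw [hBdef]
          simp only [Nat.unpair_pair]
          rw [if_pos (ha k)]
      have hcode : ∀ n, ∃ z, B n = {x | W (Nat.unpair n).1 z x} := fun n =>
        hW2 _ _ (hB n)
      choose c hcd using hcode
      refine ⟨fun j => c (Nat.unpair j).1 (Nat.unpair j).2, ?_⟩
      have hS' : S = (⋃ n, B n)ᶜ := by rw [hBU, ← h4, compl_compl]
      rw [hS']
      ext x
      constructor
      · intro hx n hn
        apply hx
        rw [mem_iUnion]
        refine ⟨n, ?_⟩
        rw [hcd n]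
        simp only [Nat.unpair_pair] at hn
        exact hn
      · intro hx hxn
        obtain ⟨n, hn⟩ := mem_iUnion.mp hxn
        rw [hcd n] at hn
        apply hx n
        simp only [Nat.unpair_pair]
        exact hn

/-- **Universal sets.** -/
theorem t_univ : S_univ := fun hc ξ h1 h2 => univ_aux hc ξ h1 h2

end Pool.Agent.Q254.SR
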