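import Pool.Agent.Q215.SR.Stm

/-!
The Vaught transform of a `Π⁰_ξ` set is a `Π⁰_ξ` set (lemma job SR-VAUGHT of helper215).
-/

set_option autoImplicit false

open Set Topology Filter

namespace Pool.Agent.Q254.SR

open Pool.Agent.Q215.SR

theorem measurableSet_of_sigmaZero {Y : Type} [TopologicalSpace Y] [MeasurableSpace Y]
    [BorelSpace Y] {ξ : Ordinal.{0}} {T : Set Y} (h : SigmaZero ξ T) : MeasurableSet T := by
  induction h with
  | base U hU => exact hU.measurableSet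
  | union ξ hξ η A h1 h2 hA ih => exact MeasurableSet.iUnion fun n => (ih n).of_compl

/-- comeager in the part in `U`, closed sets -/
theorem cm_closed {Z : Type} [TopologicalSpace Z] [BaireSpace Z] {U S : Set Z} (hU : IsOpen U)
    (hS : IsClosed S) : {y : Z | y ∈ U → y ∈ S} ∈ residual Z ↔ U ⊆ S := by
  constructor
  · intro h y hy
    by_contra hyS
    have hd := dense_of_mem_residual h
    obtain ⟨z, hz1, hz2⟩ := hd.inter_open_nonempty (U ∩ Sᶜ) (hU.inter hS.isOpen_compl) ⟨y, hy, hyS⟩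
    exact hz1.2 (hz2 hz1.1)
  · intro h
    have : {y : Z | y ∈ U → y ∈ S} = univ := by
      refine eq_univ_of_forall fun y => ?_
      exact fun hy => h hy
    rw [this]
    exact univ_mem

theorem exists_seq_basis (Y : Type) [TopologicalSpace Y] [SecondCountableTopology Y] :
    ∃ V : ℕ → Set Y, (∀ k, IsOpen (V k)) ∧
      ∀ (O : Set Y) (y : Y), IsOpen O → y ∈ O → ∃ k, y ∈ V k ∧ V k ⊆ O := by
  obtain ⟨b, hbc, -, hb⟩ := TopologicalSpace.exists_countable_basis Y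
  by_cases hne : b.Nonempty
  · obtain ⟨V, hV⟩ := hbc.exists_eq_range hne
    refine ⟨V, fun k => hb.isOpen (by rw [hV]; exact mem_range_self k), fun O y hO hy => ?_⟩
    obtain ⟨v, hv, hyv, hvO⟩ := hb.exists_subset_of_mem_open hy hO
    rw [hV] at hv
    obtain ⟨k, rfl⟩ := hv
    exact ⟨k, hyv, hvO⟩
  · refine ⟨fun _ => ∅, fun _ => isOpen_empty, fun O y hO hy => ?_⟩
    obtain ⟨v, hv, -, -⟩ := hb.exists_subset_of_mem_open hy hO
    exact absurd ⟨v, hv⟩ hne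

/-- the part of `V` inside of `U` if `V ⊆ U`, empty otherwise -/
noncomputable def cut {Y : Type} (U V : Set Y) : Set Y :=
  {y | y ∈ V ∧ V ⊆ U}

theorem cut_of_sub {Y : Type} {U V : Set Y} (h : V ⊆ U) : cut U V = V := by
  ext y
  exact ⟨fun hy => hy.1, fun hy => ⟨hy, h⟩⟩

theorem cut_of_not {Y : Type} {U V : Set Y} (h : ¬ V ⊆ U) : cut U V = ∅ := by
  ext y
  exact ⟨fun hy => absurd hy.2 h, fun hy => absurd hy (notMem_empty y)⟩

theorem cut_sub {Y : Type} (U V : Set Y) : cut U V ⊆ U := fun _ hy => hy.2 hy.1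

theorem isOpen_cut {Y : Type} [TopologicalSpace Y] {U V : Set Y} (hV : IsOpen V) :
    IsOpen (cut U V) := by
  by_cases h : V ⊆ U
  · rw [cut_of_sub h]; exact hV
  · rw [cut_of_not h]; exact isOpen_empty

/-- a Borel set `A` is not meager in the part in `U` of a fibre iff it is comeager in the part in
some basic open set of the fibre. -/
theorem not_cm_iff {F : Set (ℕ → ℕ)} (hF : IsClosed F) {V : ℕ → Set (ℕ → ℕ)}
    (hVo : ∀ k, IsOpen (V k))
    (hV : ∀ (O : Set (ℕ → ℕ)) (y : ℕ → ℕ), IsOpen O → y ∈ O → ∃ k, y ∈ V k ∧ V k ⊆ O)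
    {A U : Set (ℕ → ℕ)} (hA : MeasurableSet A) (hU : IsOpen U) :
    ({y : F | (y : ℕ → ℕ) ∈ U → (y : ℕ → ℕ) ∈ Aᶜ} ∉ residual F) ↔
      ∃ k, (∃ y ∈ F, y ∈ cut U (V k)) ∧
        {y : F | (y : ℕ → ℕ) ∈ cut U (V k) → (y : ℕ → ℕ) ∈ A} ∈ residual F := by
  have hP : PolishSpace F := hF.polishSpace
  have hB : BaireSpace F := by
    let _ := TopologicalSpace.upgradeIsCompletelyMetrizable F
    infer_instance
  constructor
  · intro h
    have hm : MeasurableSet ((Subtype.val : F → (ℕ → ℕ)) ⁻¹' A) := measurable_subtype_coe hA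
    obtain ⟨O, hO, hAO⟩ := hm.residualEq_isOpen
    have hAO' : {y : F | (y : ℕ → ℕ) ∈ A ↔ y ∈ O} ∈ residual F := by
      filter_upwards [hAO] with y hy
      exact Iff.of_eq hy
    obtain ⟨O', hO', rfl⟩ := isOpen_induced_iff.mp hO
    by_cases hne : ∃ y ∈ F, y ∈ U ∧ y ∈ O'
    · obtain ⟨y, hyF, hyU, hyO⟩ := hne
      obtain ⟨k, hyk, hk⟩ := hV (U ∩ O') y (hU.inter hO') ⟨hyU, hyO⟩
      have hkU : V k ⊆ U := fun z hz => (hk hz).1
      refine ⟨k, ⟨y, hyF, ?_⟩, ?_⟩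
      · rw [cut_of_sub hkU]; exact hyk
      · rw [cut_of_sub hkU]
        filter_upwards [hAO'] with z hz hzk
        exact hz.mpr (hk hzk).2
    · exfalso
      apply h
      filter_upwards [hAO'] with z hz hzU hzA
      exact hne ⟨z, z.2, hzU, hz.mp hzA⟩
  · rintro ⟨k, ⟨y, hyF, hyk⟩, hk⟩ hcm
    have h2 : {z : F | ((z : ℕ → ℕ) ∈ cut U (V k) → (z : ℕ → ℕ) ∈ A) ∧
        ((z : ℕ → ℕ) ∈ U → (z : ℕ → ℕ) ∈ Aᶜ)} ∈ residual F := by
      filter_upwards [hk, hcm] with z h1 h2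
      exact ⟨h1, h2⟩
    have hd := dense_of_mem_residual h2
    obtain ⟨z, hz1, hz2⟩ := hd.inter_open_nonempty ((Subtype.val : F → (ℕ → ℕ)) ⁻¹' cut U (V k))
      ((isOpen_cut (hVo k)).preimage continuous_subtype_val) ⟨⟨y, hyF⟩, hyk⟩
    exact hz2.2 (cut_sub U (V k) hz1) (hz2.1 hz1)

theorem vaught_aux (hc : S_cls) (X : Type) [TopologicalSpace X] [PolishSpace X]
    (π : (ℕ → ℕ) → X) (hπ : Continuous π) (_hs : Function.Surjective π) (ho : IsOpenMap π)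
    {ξ : Ordinal.{0}} {T : Set (ℕ → ℕ)} (h : SigmaZero ξ T) :
    1 ≤ ξ ∧ ∀ U : Set (ℕ → ℕ), IsOpen U → SigmaZero ξ (Vt π U Tᶜ)ᶜ := by
  obtain ⟨c1, c2, c3, c4⟩ := hc
  have hFcl : ∀ x : X, IsClosed (π ⁻¹' {x} : Set (ℕ → ℕ)) := fun x =>
    isClosed_singleton.preimage hπ
  induction h with
  | base T hT =>
    refine ⟨le_rfl, fun U hU => ?_⟩
    have : (Vt π U Tᶜ)ᶜ = π '' (U ∩ T) := by
      ext x
      have hP : PolishSpace (π ⁻¹' {x} : Set (ℕ → ℕ)) := (hFcl x).polishSpace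
      have hB : BaireSpace (π ⁻¹' {x} : Set (ℕ → ℕ)) := by
        let _ := TopologicalSpace.upgradeIsCompletelyMetrizable (π ⁻¹' {x} : Set (ℕ → ℕ))
        infer_instance
      have hk := cm_closed (Z := (π ⁻¹' {x} : Set (ℕ → ℕ)))
        (U := (Subtype.val : (π ⁻¹' {x} : Set (ℕ → ℕ)) → (ℕ → ℕ)) ⁻¹' U)
        (S := (Subtype.val : (π ⁻¹' {x} : Set (ℕ → ℕ)) → (ℕ → ℕ)) ⁻¹' Tᶜ)
        (hU.preimage continuous_subtype_val)
        (hT.isClosed_compl.preimage continuous_subtype_val)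
      constructor
      · intro hx
        have hx' : ¬ ((Subtype.val : (π ⁻¹' {x} : Set (ℕ → ℕ)) → (ℕ → ℕ)) ⁻¹' U ⊆
            (Subtype.val : (π ⁻¹' {x} : Set (ℕ → ℕ)) → (ℕ → ℕ)) ⁻¹' Tᶜ) := fun hc => hx (hk.mpr hc)
        obtain ⟨y, hy1, hy2⟩ := not_subset.mp hx'
        refine ⟨y, ⟨hy1, ?_⟩, y.2⟩
        by_contra hyT
        exact hy2 hyT
      · rintro ⟨y, ⟨hyU, hyT⟩, hyx⟩ hx
        exact hk.mp hx (show (⟨y, hyx⟩ : (π ⁻¹' {x} : Set (ℕ → ℕ))) ∈ _ from hyU) hyT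
    rw [this]
    exact SigmaZero.base _ (ho _ (hU.inter hT))
  | union ξ hξ η A h1 h2 hA ih =>
    refine ⟨hξ.le, fun U hU => ?_⟩
    obtain ⟨V, hVo, hV⟩ := exists_seq_basis (ℕ → ℕ)
    have key : (Vt π U (⋃ n, A n)ᶜ)ᶜ =
        ⋃ n, ⋃ k, (π '' cut U (V k) ∩ Vt π (cut U (V k)) (A n)) := by
      ext x
      have h5 : x ∈ Vt π U (⋃ n, A n)ᶜ ↔ ∀ n, x ∈ Vt π U (A n)ᶜ := by
        have e : {y : (π ⁻¹' {x} : Set (ℕ → ℕ)) | (y : ℕ → ℕ) ∈ U → (y : ℕ → ℕ) ∈ (⋃ n, A n)ᶜ} =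
            ⋂ n, {y : (π ⁻¹' {x} : Set (ℕ → ℕ)) | (y : ℕ → ℕ) ∈ U → (y : ℕ → ℕ) ∈ (A n)ᶜ} := by
          ext y
          rw [mem_iInter]
          constructor
          · intro hy n hyU hyn
            exact hy hyU (mem_iUnion.mpr ⟨n, hyn⟩)
          · intro hy hyU hyn
            obtain ⟨n, hn⟩ := mem_iUnion.mp hyn
            exact hy n hyU hn
        show _ ∈ residual _ ↔ _
        rw [e, countable_iInter_mem]
        rfl
      have h6 : ∀ n, (x ∉ Vt π U (A n)ᶜ ↔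
          x ∈ ⋃ k, (π '' cut U (V k) ∩ Vt π (cut U (V k)) (A n))) := by
        intro n
        have hm : MeasurableSet (A n) := (measurableSet_of_sigmaZero (hA n)).of_compl
        refine (not_cm_iff (hFcl x) hVo hV hm hU).trans ?_
        rw [mem_iUnion]
        refine exists_congr fun k => ?_
        constructor
        · rintro ⟨⟨y, hyF, hyk⟩, hk⟩
          exact ⟨⟨y, hyk, hyF⟩, hk⟩
        · rintro ⟨⟨y, hyk, hyF⟩, hk⟩
          exact ⟨⟨y, hyF, hyk⟩, hk⟩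
      rw [mem_compl_iff, h5, not_forall, mem_iUnion]
      exact exists_congr fun n => h6 n
    rw [key]
    refine c3 X ξ _ fun n => c3 X ξ _ fun k => c4 X ξ _ _ ?_ ?_
    · exact c1 X 1 ξ _ hξ.le (SigmaZero.base _ (ho _ (isOpen_cut (hVo k))))
    · refine c2 X (η n) ξ _ (h2 n) ?_
      have := (ih n).2 (cut U (V k)) (isOpen_cut (hVo k))
      rwa [compl_compl] at this

/-- **The Vaught transform.** -/
theorem t_vaught : S_vaught := by
  intro hc X _ _ π hπ hs ho ξ S U hU h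
  have := (vaught_aux hc X π hπ hs ho h).2 U hU
  rwa [compl_compl] at this

end Pool.Agent.Q254.SR
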